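import Pool.Agent.N889.AO.Stm

/-!
# AO/MORQ: a polynomial in a derivation which is multiplicative on eigenvalues is a homomorphism
-/

set_option autoImplicit false
open Polynomial Matrix

namespace Pool.Agent.N196.AO

open Pool.Agent.N889.AO

variable {ι : Type} [Fintype ι] [DecidableEq ι] {K : Type} [Field K] [Algebra ℚ K]

lemma map_mv (φ : ℚ →+* K) (M : Matrix ι ι ℚ) (x : ι → ℚ) :
    (fun k => φ ((M *ᵥ x) k)) = (M.map φ) *ᵥ (fun k => φ (x k)) := by
  funext k
  exact RingHom.map_mulVec φ M x k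

lemma map_single (φ : ℚ →+* K) (i : ι) :
    (fun k => φ ((Pi.single i 1 : ι → ℚ) k)) = (Pi.single i 1 : ι → K) := by
  funext k
  by_cases h : k = i
  · subst h; simp
  · simp [h]

lemma der_map {c : ι → ι → ι → ℤ} {D : Matrix ι ι ℚ} (φ : ℚ →+* K) (h : IsDer c ℚ D) :
    IsDer c K (D.map φ) := by
  rw [isDer_iff]
  intro i j
  have h1 := h (Pi.single i 1) (Pi.single j 1)
  have h2 := congrArg (fun (x : ι → ℚ) => fun k => φ (x k)) h1
  have h3 : (fun k => φ ((D *ᵥ mulc c ℚ (Pi.single i 1) (Pi.single j 1)) k)) =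
      (D.map φ) *ᵥ mulc c K (Pi.single i 1) (Pi.single j 1) := by
    rw [map_mv, mulc_map, map_single, map_single]
  have h4 : (fun k => φ ((mulc c ℚ (D *ᵥ Pi.single i 1) (Pi.single j 1) +
      mulc c ℚ (Pi.single i 1) (D *ᵥ Pi.single j 1)) k)) =
      mulc c K ((D.map φ) *ᵥ Pi.single i 1) (Pi.single j 1) +
      mulc c K (Pi.single i 1) ((D.map φ) *ᵥ Pi.single j 1) := by
    have e1 := mulc_map c φ (D *ᵥ Pi.single i 1) (Pi.single j 1)
    have e2 := mulc_map c φ (Pi.single i 1) (D *ᵥ Pi.single j 1)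
    rw [map_mv, map_single, map_single] at e1 e2
    rw [← e1, ← e2]
    funext k
    exact map_add φ _ _
  rw [← h3, ← h4]
  exact h2

lemma mor_map {c : ι → ι → ι → ℤ} {A : Matrix ι ι ℚ} (φ : ℚ →+* K)
    (h : IsMor c c K (A.map φ)) : IsMor c c ℚ A := by
  rw [isMor_iff]
  intro i j
  have h1 := h (Pi.single i 1) (Pi.single j 1)
  have e1 : (fun k => φ ((A *ᵥ mulc c ℚ (Pi.single i 1) (Pi.single j 1)) k)) =
      (A.map φ) *ᵥ mulc c K (Pi.single i 1) (Pi.single j 1) := by
    rw [map_mv, mulc_map, map_single, map_single]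
  have e2 := mulc_map c φ (A *ᵥ Pi.single i 1) (A *ᵥ Pi.single j 1)
  rw [map_mv, map_mv, map_single, map_single] at e2
  rw [← e1, ← e2] at h1
  funext k
  exact φ.injective (congrFun h1 k)

/-- the action on eigenvectors -/
lemma aeval_mv {D : Matrix ι ι K} {a : K} {v : ι → K} (h : D *ᵥ v = a • v) (q : ℚ[X]) :
    (aeval D q) *ᵥ v = (aeval a q) • v := by
  have hpow : ∀ n : ℕ, (D ^ n) *ᵥ v = (a ^ n) • v := by
    intro n
    induction n with
    | zero => simp
    | succ n ih =>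
      rw [pow_succ, ← Matrix.mulVec_mulVec, h, Matrix.mulVec_smul, ih, smul_smul, pow_succ,
        mul_comm]
  induction q using Polynomial.induction_on' with
  | add p q hp hq => rw [map_add, map_add, Matrix.add_mulVec, hp, hq, add_smul]
  | monomial n c =>
    have e : c • D ^ n = (algebraMap ℚ K c) • D ^ n := (algebraMap_smul K c (D ^ n)).symm
    rw [aeval_monomial, aeval_monomial, Algebra.algebraMap_eq_smul_one (A := Matrix ι ι K),
      smul_mul_assoc, one_mul, e, Matrix.smul_mulVec, hpow, smul_smul]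

lemma charpoly_lin (A : Matrix ι ι K) : (Matrix.toLin' A).charpoly = A.charpoly := by
  rw [← LinearMap.charpoly_toMatrix (Matrix.toLin' A) (Pi.basisFun K ι),
    LinearMap.toMatrix_eq_toMatrix', LinearMap.toMatrix'_toLin']

theorem stmMorq : StmMorq := by
  intro ι _ _ c D K _ _ r q hder hinj hchar hmul
  obtain ⟨φ, hφ⟩ : ∃ φ : ℚ →+* K, φ = algebraMap ℚ K := ⟨_, rfl⟩
  obtain ⟨D', hD'⟩ : ∃ D' : Matrix ι ι K, D' = D.map φ := ⟨_, rfl⟩
  have hcp : D'.charpoly = ∏ i, (X - C (r i)) := by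
    rw [hD', ← hchar, ← hφ, Matrix.charpoly_map]
  have hroot : ∀ (a : K), (∃ v : ι → K, v ≠ 0 ∧ D' *ᵥ v = a • v) ↔ ∃ i, a = r i := by
    intro a
    have h1 : (∃ v : ι → K, v ≠ 0 ∧ D' *ᵥ v = a • v) ↔
        ∃ v : ι → K, v ≠ 0 ∧ (Matrix.scalar ι a - D') *ᵥ v = 0 := by
      refine exists_congr fun v => and_congr Iff.rfl ?_
      rw [Matrix.sub_mulVec, sub_eq_zero]
      have : (Matrix.scalar ι a) *ᵥ v = a • v := by
        rw [Matrix.scalar_apply, ← Matrix.smul_one_eq_diagonal, Matrix.smul_mulVec,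
          Matrix.one_mulVec]
      rw [this]
      exact eq_comm
    rw [h1, Matrix.exists_mulVec_eq_zero_iff, ← Matrix.eval_charpoly, hcp, eval_prod,
      Finset.prod_eq_zero_iff]
    simp [sub_eq_zero]
  have hv : ∀ i, ∃ v : ι → K, v ≠ 0 ∧ D' *ᵥ v = r i • v := fun i => (hroot (r i)).2 ⟨i, rfl⟩
  choose v hv0 hv1 using hv
  have hli : LinearIndependent K v := by
    refine Module.End.eigenvectors_linearIndependent' (Matrix.toLin' D') r hinj v fun i => ?_
    rw [Module.End.hasEigenvector_iff]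
    refine ⟨?_, hv0 i⟩
    rw [Module.End.mem_eigenspace_iff, Matrix.toLin'_apply, hv1 i]
  have hspan : Submodule.span K (Set.range v) = ⊤ :=
    hli.span_eq_top_of_card_eq_finrank' (by simp)
  obtain ⟨b, hb⟩ : ∃ b : Module.Basis ι K (ι → K), ⇑b = v :=
    ⟨Module.Basis.mk hli hspan.ge, Module.Basis.coe_mk _ _⟩
  obtain ⟨A', hA'⟩ : ∃ A' : Matrix ι ι K, A' = (aeval D q).map φ := ⟨_, rfl⟩
  have hAD : A' = aeval D' q := by
    have h1 := Polynomial.aeval_algHom_apply ((Algebra.ofId ℚ K).mapMatrix (m := ι)) D q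
    rw [hA', hD', hφ]
    exact h1.symm
  have hAv : ∀ i, A' *ᵥ v i = (aeval (r i) q) • v i := fun i => by
    rw [hAD]; exact aeval_mv (hv1 i) q
  have hder' : IsDer c K D' := by rw [hD']; exact der_map φ hder
  -- the homomorphism property
  have hmor : IsMor c c K A' := by
    have h1 : (mulB c K).compr₂ A'.mulVecLin = (mulB c K).compl₁₂ A'.mulVecLin A'.mulVecLin := by
      refine b.ext fun i => b.ext fun j => ?_
      rw [hb]
      simp only [LinearMap.compr₂_apply, LinearMap.compl₁₂_apply, Matrix.mulVecLin_apply,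
        mulB_apply]
      rw [hAv i, hAv j, mulc_smul_left, mulc_smul_right, smul_smul]
      obtain ⟨y, hy⟩ : ∃ y, y = mulc c K (v i) (v j) := ⟨_, rfl⟩
      rw [← hy]
      by_cases hy0 : y = 0
      · rw [hy0, Matrix.mulVec_zero, smul_zero]
      have hDy : D' *ᵥ y = (r i + r j) • y := by
        rw [hy, hder' (v i) (v j), hv1 i, hv1 j, mulc_smul_left, mulc_smul_right, add_smul]
      obtain ⟨k, hk⟩ := (hroot (r i + r j)).1 ⟨y, hy0, hDy⟩
      rw [hk] at hDy
      rw [hAD, aeval_mv hDy q, hmul i j k hk]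
    intro x y
    have h2 := LinearMap.congr_fun (LinearMap.congr_fun h1 x) y
    simpa only [LinearMap.compr₂_apply, LinearMap.compl₁₂_apply, Matrix.mulVecLin_apply,
      mulB_apply] using h2
  refine ⟨mor_map φ (by rw [← hA']; exact hmor), ?_⟩
  rw [← hφ, ← Matrix.charpoly_map, ← hA', ← charpoly_lin A',
    ← LinearMap.charpoly_toMatrix (Matrix.toLin' A') b]
  have h1 : LinearMap.toMatrix b b (Matrix.toLin' A') = Matrix.diagonal fun i => aeval (r i) q := by
    ext i j
    rw [LinearMap.toMatrix_apply, Matrix.toLin'_apply, hb, hAv j, map_smul, Finsupp.smul_apply,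
      ← hb, b.repr_self, Matrix.diagonal_apply, Finsupp.single_apply]
    by_cases h : j = i
    · subst h; simp
    · rw [if_neg h, if_neg (Ne.symm h), smul_zero]
  rw [h1, Matrix.charpoly_diagonal]

end Pool.Agent.N196.AO
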